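import Pool.Agent.W5h10.EO.Final

set_option autoImplicit false

/-!
# Four edge-orderings of the 5-edge path have quasi-linear extremal functions

`ex_<(n, P_6^{14523}) = O(n log^3 n)`, and `ex_<(n, H) = O(n log^2 n)` for the three paths
`P_6^{14532}`, `P_6^{15423}`, `P_6^{21453}`.

Idea. Replace the order by labels `0, 1, 2, ...`. For the first three patterns the first edge is
the smallest one and can be attached to any vertex `v` as soon as all further labels are above
the fourth smallest label `β(v)` at `v`. Pass to a bipartite class graph, in which the ages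
`label - β` of all edges at both ends are in fixed short dyadic classes. All edges at a vertex then
lie in a window which is short compared with their ages, so that the class graph avoids the
four-edge rest of the pattern in one orientation and the short copies of it in the other
orientation. For `15423` and `14532` such a class graph has `O(n)` edges. For `14523` it has
`O(n log n)` edges; this is a counting argument comparing the gap after an edge with the label
distance to a fixed limit of its vertex. For `21453` the path is cut at its third vertex, `β` is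
replaced by the least `θ(v)` such that there are four disjoint increasing legs at `v` with labels
at most `θ(v)`, and edges are treated according to whether they are above or below `θ` at their
ends.
-/

namespace Pool.Agent.Results.MP_e6c106_co.FourPaths

open Pool.Agent.W5h10.EO

/-- An edge-ordered graph on the vertex set `V`: a simple graph together with a linear order on its
edge set. -/
structure EOGraph (V : Type) where
  /-- The underlying simple graph. -/
  graph : SimpleGraph V
  /-- The linear order on the edge set. -/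
  order : LinearOrder graph.edgeSet

/-- `G` contains the edge-ordered path `P_6^π`: there is a path `v 0, v 1, ..., v 5` in `G` (six
distinct vertices, consecutive ones adjacent) whose five edges, read along the path, are ordered in
`G` in the same way as the numbers `π 0, ..., π 4`. -/
def ContainsP6 {V : Type} (G : EOGraph V) (π : Fin 5 → ℕ) : Prop :=
  ∃ (v : Fin 6 → V) (_ : Function.Injective v)
    (h : ∀ i : Fin 5, G.graph.Adj (v i.castSucc) (v i.succ)),
    ∀ i j : Fin 5, π i < π j →
      G.order.lt ⟨s(v i.castSucc, v i.succ), h i⟩ ⟨s(v j.castSucc, v j.succ), h j⟩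

/-- The extremal function `ex_<(n, P_6^π)`: the largest number of edges of an edge-ordered graph on
`n` vertices which does not contain `P_6^π`. -/
noncomputable def exP6 (n : ℕ) (π : Fin 5 → ℕ) : ℕ :=
  sSup {m : ℕ | ∃ G : EOGraph (Fin n), ¬ ContainsP6 G π ∧ G.graph.edgeSet.ncard = m}

lemma contains_of {n : ℕ} (G : EOGraph (Fin n)) (π : Fin 5 → ℕ)
    (E : Finset (Fin n × Fin n)) (w : Fin n → Fin n → ℕ)
    (hE : ∀ u v, (u, v) ∈ E ↔ G.graph.Adj u v)
    (hlt : ∀ (a b c d : Fin n) (h : G.graph.Adj a b) (h' : G.graph.Adj c d), w a b < w c d →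
        G.order.lt ⟨s(a, b), h⟩ ⟨s(c, d), h'⟩)
    (v : Fin 6 → Fin n) (hnd : [v 0, v 1, v 2, v 3, v 4, v 5].Nodup)
    (e0 : (v 0, v 1) ∈ E) (e1 : (v 1, v 2) ∈ E) (e2 : (v 2, v 3) ∈ E) (e3 : (v 3, v 4) ∈ E)
    (e4 : (v 4, v 5) ∈ E)
    (hw : ∀ i j : Fin 5, π i < π j →
      w (v i.castSucc) (v i.succ) < w (v j.castSucc) (v j.succ)) : ContainsP6 G π := by
  have h : ∀ i : Fin 5, G.graph.Adj (v i.castSucc) (v i.succ) := by
    intro i
    fin_cases i
    · exact (hE _ _).1 e0
    · exact (hE _ _).1 e1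
    · exact (hE _ _).1 e2
    · exact (hE _ _).1 e3
    · exact (hE _ _).1 e4
  refine ⟨v, ?_, h, fun i j hij => hlt _ _ _ _ (h i) (h j) (hw i j hij)⟩
  intro i j hij
  simp only [List.nodup_cons, List.mem_cons, List.not_mem_nil, or_false, not_or,
    not_false_eq_true, List.nodup_nil, and_true] at hnd
  obtain ⟨⟨h01, h02, h03, h04, h05⟩, ⟨h12, h13, h14, h15⟩, ⟨h23, h24, h25⟩, ⟨h34, h35⟩, h45⟩ := hnd
  fin_cases i <;> fin_cases j <;> first
    | rfl
    | exact absurd hij (by assumption)
    | exact absurd hij.symm (by assumption)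

/-- From the absence of label patterns to the extremal function. -/
lemma ex_le (π : Fin 5 → ℕ) (A k : ℕ)
    (key : ∀ n : ℕ, 2 ≤ n → ∀ (E : Finset (Fin n × Fin n)) (w : Fin n → Fin n → ℕ),
      Enc n (2 * (Nat.log 2 n + 1)) E w →
      (∀ v : Fin 6 → Fin n, [v 0, v 1, v 2, v 3, v 4, v 5].Nodup →
        (v 0, v 1) ∈ E → (v 1, v 2) ∈ E → (v 2, v 3) ∈ E → (v 3, v 4) ∈ E → (v 4, v 5) ∈ E →
        ¬ ∀ i j : Fin 5, π i < π j →
          w (v i.castSucc) (v i.succ) < w (v j.castSucc) (v j.succ)) →
      E.card ≤ A * n * (2 * (Nat.log 2 n + 1)) ^ k) :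
    ∃ C : ℝ, ∀ n : ℕ, 2 ≤ n → (exP6 n π : ℝ) ≤ C * n * (Real.log n) ^ k := by
  refine ⟨(A * 6 ^ k : ℝ), ?_⟩
  intro n hn
  apply conv hn rfl
  apply csSup_le'
  rintro m ⟨G, hG, rfl⟩
  obtain ⟨E, w, henc, hcard, hE, hlt⟩ := exists_enc hn G.graph G.order
  have := key n hn E w henc (by
    intro v hnd e0 e1 e2 e3 e4 hw
    exact hG (contains_of G π E w hE hlt v hnd e0 e1 e2 e3 e4 hw))
  omega

/-- **The four open edge-orderings of the 5-edge path have quasi-linear extremal functions.** -/
theorem result :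
    (∃ C : ℝ, ∀ n : ℕ, 2 ≤ n → (exP6 n ![1, 4, 5, 2, 3] : ℝ) ≤ C * n * (Real.log n) ^ 3) ∧
    (∃ C : ℝ, ∀ n : ℕ, 2 ≤ n → (exP6 n ![1, 4, 5, 3, 2] : ℝ) ≤ C * n * (Real.log n) ^ 2) ∧
    (∃ C : ℝ, ∀ n : ℕ, 2 ≤ n → (exP6 n ![1, 5, 4, 2, 3] : ℝ) ≤ C * n * (Real.log n) ^ 2) ∧
    (∃ C : ℝ, ∀ n : ℕ, 2 ≤ n → (exP6 n ![2, 1, 4, 5, 3] : ℝ) ≤ C * n * (Real.log n) ^ 2) := by
  refine ⟨ex_le _ 6664 3 ?_, ex_le _ 392 2 ?_, ex_le _ 392 2 ?_, ex_le _ 888 2 ?_⟩
  · intro n hn E w henc hfree
    apply bound14523 (by omega) (by omega) henc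
    intro v0 v1 v2 v3 v4 v5 hnd e0 e1 e2 e3 e4 h1 h2 h3 h4
    apply hfree ![v0, v1, v2, v3, v4, v5] hnd e0 e1 e2 e3 e4
    intro i j hij
    fin_cases i <;> fin_cases j <;> simp at hij ⊢ <;> omega
  · intro n hn E w henc hfree
    apply bound14532 (by omega) henc
    intro v0 v1 v2 v3 v4 v5 hnd e0 e1 e2 e3 e4 h1 h2 h3 h4
    apply hfree ![v0, v1, v2, v3, v4, v5] hnd e0 e1 e2 e3 e4
    intro i j hij
    fin_cases i <;> fin_cases j <;> simp at hij ⊢ <;> omega
  · intro n hn E w henc hfree
    apply bound15423 (by omega) henc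
    intro v0 v1 v2 v3 v4 v5 hnd e0 e1 e2 e3 e4 h1 h2 h3 h4
    apply hfree ![v0, v1, v2, v3, v4, v5] hnd e0 e1 e2 e3 e4
    intro i j hij
    fin_cases i <;> fin_cases j <;> simp at hij ⊢ <;> omega
  · intro n hn E w henc hfree
    apply bound21453 (by omega) (by omega) henc
    intro v0 v1 v2 v3 v4 v5 hnd e0 e1 e2 e3 e4 h1 h2 h3 h4
    apply hfree ![v0, v1, v2, v3, v4, v5] hnd e0 e1 e2 e3 e4
    intro i j hij
    fin_cases i <;> fin_cases j <;> simp at hij ⊢ <;> omega

end Pool.Agent.Results.MP_e6c106_co.FourPaths
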